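import Pool.Agent.V11292.SZ.Main

/-!
# MP_a053e2: the sublinear projective Schwartz-Zippel bound

For all `n ≥ 1` and `0 ≤ k ≤ n` there is a constant `c` such that every variety `X ⊆ ℙ^n_ℚ` of
pure dimension `k` and degree `d` has at most `c d^{n/(n+1)} B^{k+1}` rational points of height at
most `B`, for all `B ≥ 1`.
-/

set_option autoImplicit false

namespace Pool.Agent.Results.MP_a053e2_nt.SublinearSchwartzZippel

open MvPolynomial Filter Topology

attribute [local instance] MvPolynomial.gradedAlgebra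

/-- The homogeneous coordinate ring `ℚ[x_0, …, x_n]` of `ℙ^n_ℚ`. -/
abbrev S (n : ℕ) := MvPolynomial (Fin (n + 1)) ℚ

/-- A variety in `ℙ^n_ℚ`, i.e. a reduced closed subscheme, not necessarily irreducible, given by
its homogeneous radical ideal. -/
structure Variety (n : ℕ) where
  ideal : Ideal (S n)
  isHomogeneous : ideal.IsHomogeneous (homogeneousSubmodule (Fin (n + 1)) ℚ)
  isRadical : ideal.IsRadical

/-- The (finite) set of the prime ideals of the irreducible components of `X`, i.e. of the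
minimal primes of the ideal of `X`. -/
noncomputable def Variety.components {n : ℕ} (X : Variety n) : Finset (Ideal (S n)) :=
  X.ideal.finite_minimalPrimes_of_isNoetherianRing.toFinset

/-- The Hilbert function of `ℚ[x_0, …, x_n] / P`: the dimension over `ℚ` of the degree `t` part,
which is the image of the space of forms of degree `t`. -/
noncomputable def hilbertFunction {n : ℕ} (P : Ideal (S n)) (t : ℕ) : ℕ :=
  Module.finrank ℚ
    ((homogeneousSubmodule (Fin (n + 1)) ℚ t).map (Ideal.Quotient.mkₐ ℚ P).toLinearMap)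

/-- The integral subvariety of `ℙ^n_ℚ` with homogeneous prime ideal `P` has dimension `k` (its
homogeneous coordinate ring has Krull dimension `k + 1`) and degree `e` (`e` is `k!` times the
coefficient of `t^k` of the Hilbert polynomial). -/
structure HasDimDegree {n : ℕ} (P : Ideal (S n)) (k e : ℕ) : Prop where
  dimension : ringKrullDim (S n ⧸ P) = ((k + 1 : ℕ) : WithBot ℕ∞)
  degree : Tendsto (fun t : ℕ => (k.factorial : ℝ) * hilbertFunction P t / (t : ℝ) ^ k) atTop
    (𝓝 (e : ℝ))

/-- `X(ℚ, B)`: the points of `ℙ^n(ℚ)` on `X` that admit homogeneous integer coordinates of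
absolute value at most `B`. -/
def Variety.points {n : ℕ} (X : Variety n) (B : ℝ) :
    Set (Projectivization ℚ (Fin (n + 1) → ℚ)) :=
  {p | ∃ (x : Fin (n + 1) → ℤ) (hx : (fun i => (x i : ℚ)) ≠ 0),
    p = Projectivization.mk ℚ (fun i => (x i : ℚ)) hx ∧ (∀ i, |(x i : ℝ)| ≤ B) ∧
    ∀ f ∈ X.ideal, eval (fun i => (x i : ℚ)) f = 0}

/-- The sublinear projective Schwartz-Zippel bound: `e P` is the degree of the component with
ideal `P`, so that the degree of `X` is the sum of the `e P`. -/
theorem result (n k : ℕ) (hn : 1 ≤ n) (hk : k ≤ n) :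
    ∃ c : ℝ, 0 < c ∧ ∀ (X : Variety n) (e : Ideal (S n) → ℕ),
      (∀ P ∈ X.components, HasDimDegree P k (e P)) →
      ∀ B : ℝ, 1 ≤ B → (X.points B).Finite ∧
        ((X.points B).ncard : ℝ) ≤
          c * ((∑ P ∈ X.components, e P : ℕ) : ℝ) ^ ((n : ℝ) / (n + 1)) * B ^ (k + 1) := by
  classical
  obtain ⟨c, hc, hmain⟩ := Pool.Agent.V11292.SZ.main_bound n k hn hk
  refine ⟨c, hc, ?_⟩
  intro X e hXe B hB
  set Bn : ℕ := ⌊B⌋₊ with hBn
  have hBnB : (Bn : ℝ) ≤ B := Nat.floor_le (by linarith)
  have hbound : ∀ z : ℤ, |(z : ℝ)| ≤ B → |z| ≤ Bn := by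
    intro z hz
    rw [← Int.cast_abs, Int.abs_eq_natAbs, Int.cast_natCast] at hz
    rw [Int.abs_eq_natAbs]
    exact_mod_cast Nat.le_floor hz
  have hfin : (X.points B).Finite := by
    have hbox : (Set.Finite {x : Fin (n + 1) → ℤ | ∀ i, |x i| ≤ Bn}) := by
      refine Set.Finite.subset (Fintype.piFinset fun _ : Fin (n + 1) =>
        Finset.Icc (-(Bn : ℤ)) Bn).finite_toSet ?_
      intro x hx
      rw [Finset.mem_coe, Fintype.mem_piFinset]
      intro i
      rw [Finset.mem_Icc, ← abs_le]
      exact hx i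
    have hne : Nonempty (Projectivization ℚ (Fin (n + 1) → ℚ)) :=
      ⟨Projectivization.mk ℚ (fun _ => 1) (by
        intro h
        have := congrFun h 0
        simp at this)⟩
    refine Set.Finite.subset (hbox.image (fun x => if hx : (fun i => (x i : ℚ)) ≠ 0 then
      Projectivization.mk ℚ (fun i => (x i : ℚ)) hx else hne.some)) ?_
    rintro p ⟨x, hx, rfl, hxB, _⟩
    refine ⟨x, fun i => hbound _ (hxB i), ?_⟩
    beta_reduce
    rw [dif_pos hx]
  refine ⟨hfin, ?_⟩
  set I := hfin.toFinset with hI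
  have hmem : ∀ p ∈ I, p ∈ X.points B := fun p hp => hfin.mem_toFinset.1 hp
  choose! x hx0 hpx hxB hxX using fun p hp => hmem p hp
  have hXdata : ∀ P ∈ X.components, P.IsPrime ∧
      P.IsHomogeneous (homogeneousSubmodule (Fin (n + 1)) ℚ) ∧
      ringKrullDim (S n ⧸ P) = ((k + 1 : ℕ) : WithBot ℕ∞) ∧
      Tendsto (fun t : ℕ => (k.factorial : ℝ) * Pool.Agent.V11292.SZ.hilb P t / (t : ℝ) ^ k)
        atTop (𝓝 (e P : ℝ)) := by
    intro P hP
    have hPm : P ∈ X.ideal.minimalPrimes := (Set.Finite.mem_toFinset _).1 hP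
    exact ⟨hPm.isPrime, Pool.Agent.V11292.SZ.minimalPrimes_hom X.isHomogeneous hPm,
      (hXe P hP).dimension, (hXe P hP).degree⟩
  have h := hmain X.components e hXdata Bn (Projectivization ℚ (Fin (n + 1) → ℚ)) I x ?_ ?_ ?_ ?_
  · rw [Set.ncard_eq_toFinset_card _ hfin]
    refine h.trans ?_
    refine mul_le_mul_of_nonneg_left ?_ (by positivity)
    exact pow_le_pow_left₀ (by positivity) hBnB _
  · intro p hp h0
    apply hx0 p hp
    funext i
    rw [h0]
    simp
  · intro p hp j
    exact hbound _ (hxB p hp j)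
  · intro p hp p' hp' hne c' heq
    apply hne
    rw [hpx p hp, hpx p' hp', Projectivization.mk_eq_mk_iff']
    exact ⟨c', heq.symm⟩
  · intro p hp
    have hle := Pool.Agent.V11292.SZ.le_ptIdeal X.isHomogeneous (fun i => (x p i : ℚ)) (hxX p hp)
    obtain ⟨P, hP, hPle⟩ := Ideal.exists_minimalPrimes_le hle
    refine ⟨P, (Set.Finite.mem_toFinset _).2 hP, ?_⟩
    intro f hf
    exact Pool.Agent.V11292.SZ.eval_eq_zero_of_mem (hPle hf)

end Pool.Agent.Results.MP_a053e2_nt.SublinearSchwartzZippel
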